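import Mathlib
import Pool.Agent.Work.MP_07fa45_al.Count

set_option autoImplicit false

namespace Pool.Agent.Results.MP_07fa45_al.SignExtensionExact

open Subgroup Pool.Agent.Work.MP_07fa45_al

/-- The defining relators of the group `W'`, as words in the generators `some s` (for `s ∈ S`) and
`none` (this is `q`): `s ^ 2`, `q ^ 2`, `q s q⁻¹ s⁻¹`, `(s t) ^ m(s,t)` if `c(s,t) = 1` and
`(s t) ^ m(s,t) q⁻¹` if `c(s,t) = -1`, where `s ≠ t` and `m(s,t) ≠ ∞` (Mathlib writes `∞` as `0`). -/
def signRels {B : Type*} (M : CoxeterMatrix B) (c : B → B → ℤˣ) : Set (FreeGroup (Option B)) :=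
  {r | (∃ s : B, r = FreeGroup.of (some s) ^ 2) ∨
    r = FreeGroup.of none ^ 2 ∨
    (∃ s : B, r = FreeGroup.of none * FreeGroup.of (some s) * (FreeGroup.of none)⁻¹ *
      (FreeGroup.of (some s))⁻¹) ∨
    (∃ s t : B, s ≠ t ∧ M s t ≠ 0 ∧ c s t = 1 ∧
      r = (FreeGroup.of (some s) * FreeGroup.of (some t)) ^ (M s t)) ∨
    (∃ s t : B, s ≠ t ∧ M s t ≠ 0 ∧ c s t = -1 ∧
      r = (FreeGroup.of (some s) * FreeGroup.of (some t)) ^ (M s t) * (FreeGroup.of none)⁻¹)}

/-- For every Coxeter system `(W, S)` and every sign choice `c`, the sequence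
`1 → ℤ/2 → W' → W → 1` is exact. -/
theorem result {B W : Type*} [Group W] {M : CoxeterMatrix B} (cs : CoxeterSystem M W)
    (c : B → B → ℤˣ)
    (hsymm : ∀ s t : B, s ≠ t → M s t ≠ 0 → c s t = c t s)
    (hconj : ∀ s t s' t' : B, s ≠ t → M s t ≠ 0 → s' ≠ t' → M s' t' ≠ 0 →
      (∃ g : W, g * cs.simple s * g⁻¹ = cs.simple s' ∧ g * cs.simple t * g⁻¹ = cs.simple t') →
      c s t = c s' t') :
    ∃ (ι : Multiplicative (ZMod 2) →* PresentedGroup (signRels M c))
      (π : PresentedGroup (signRels M c) →* W),
      ι (Multiplicative.ofAdd 1) = PresentedGroup.of none ∧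
      (∀ s : B, π (PresentedGroup.of (some s)) = cs.simple s) ∧
      π (PresentedGroup.of none) = 1 ∧
      Function.Injective ι ∧ ι.range = π.ker ∧ Function.Surjective π := by
  classical
  have hc : IsSignChoice cs c := ⟨hsymm, hconj⟩
  -- relations valid in the presented group
  have hrel : ∀ r ∈ signRels M c, (PresentedGroup.mk (signRels M c)) r = 1 := by
    intro r hr
    exact PresentedGroup.one_of_mem hr
  set q : PresentedGroup (signRels M c) := PresentedGroup.of none with hqdef
  have hss : ∀ s : B, (PresentedGroup.of (some s) : PresentedGroup (signRels M c)) ^ 2 = 1 := by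
    intro s
    have h := hrel (FreeGroup.of (some s) ^ 2) (Or.inl ⟨s, rfl⟩)
    rwa [map_pow] at h
  have hqq : q ^ 2 = 1 := by
    have h := hrel (FreeGroup.of none ^ 2) (Or.inr (Or.inl rfl))
    rwa [map_pow] at h
  have hqs : ∀ s : B, q * PresentedGroup.of (some s) = PresentedGroup.of (some s) * q := by
    intro s
    have h := hrel (FreeGroup.of none * FreeGroup.of (some s) * (FreeGroup.of none)⁻¹ *
      (FreeGroup.of (some s))⁻¹) (Or.inr (Or.inr (Or.inl ⟨s, rfl⟩)))
    rw [map_mul, map_mul, map_mul, map_inv, map_inv] at h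
    change q * PresentedGroup.of (some s) * q⁻¹ * (PresentedGroup.of (some s))⁻¹ = 1 at h
    rw [mul_inv_eq_one, mul_inv_eq_iff_eq_mul] at h
    exact h
  have hst1 : ∀ s t : B, s ≠ t → M s t ≠ 0 → c s t = 1 →
      (PresentedGroup.of (some s) * PresentedGroup.of (some t) :
        PresentedGroup (signRels M c)) ^ (M s t) = 1 := by
    intro s t h1 h2 h3
    have h := hrel ((FreeGroup.of (some s) * FreeGroup.of (some t)) ^ (M s t))
      (Or.inr (Or.inr (Or.inr (Or.inl ⟨s, t, h1, h2, h3, rfl⟩))))
    rwa [map_pow, map_mul] at h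
  have hst2 : ∀ s t : B, s ≠ t → M s t ≠ 0 → c s t = -1 →
      (PresentedGroup.of (some s) * PresentedGroup.of (some t) :
        PresentedGroup (signRels M c)) ^ (M s t) = q := by
    intro s t h1 h2 h3
    have h := hrel ((FreeGroup.of (some s) * FreeGroup.of (some t)) ^ (M s t) *
      (FreeGroup.of none)⁻¹) (Or.inr (Or.inr (Or.inr (Or.inr ⟨s, t, h1, h2, h3, rfl⟩))))
    rw [map_mul, map_inv, map_pow, map_mul, mul_inv_eq_one] at h
    exact h
  -- the map to `W`
  obtain ⟨π, hπs, hπq⟩ : ∃ π : PresentedGroup (signRels M c) →* W,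
      (∀ s : B, π (PresentedGroup.of (some s)) = cs.simple s) ∧ π q = 1 := by
    have hl : ∀ r ∈ signRels M c,
        FreeGroup.lift (fun o : Option B => o.elim 1 cs.simple) r = 1 := by
      rintro r (⟨s, rfl⟩ | rfl | ⟨s, rfl⟩ | ⟨s, t, _, _, _, rfl⟩ | ⟨s, t, _, _, _, rfl⟩)
      · simp
      · simp
      · simp
      · simp
      · simp
    refine ⟨PresentedGroup.toGroup hl, ?_, ?_⟩
    · intro s
      rw [PresentedGroup.toGroup.of]
      rfl
    · rw [hqdef, PresentedGroup.toGroup.of]
      rfl
  -- the sign `q` is not trivial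
  have hq1 : q ≠ 1 := by
    set flip : Equiv.Perm (W × ZMod 2) := Equiv.prodCongr (Equiv.refl W) (Equiv.addRight 1)
      with hflip
    have hflip_apply : ∀ (w : W) (e : ZMod 2), flip (w, e) = (w, e + 1) := fun w e => rfl
    have hl : ∀ r ∈ signRels M c,
        FreeGroup.lift (fun o : Option B => o.elim flip (tau cs c)) r = 1 := by
      rintro r (⟨s, rfl⟩ | rfl | ⟨s, rfl⟩ | ⟨s, t, h1, h2, h3, rfl⟩ | ⟨s, t, h1, h2, h3, rfl⟩)
      · rw [map_pow, FreeGroup.lift_apply_of]
        ext1 p
        rw [pow_two, Equiv.Perm.mul_apply]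
        exact (tau cs c s).injective.eq_iff.mp (by
          simp only [Option.elim]
          congr 1
          exact Function.Involutive.toPerm_involutive _ p)
      · rw [map_pow, FreeGroup.lift_apply_of]
        ext1 p
        obtain ⟨w, e⟩ := p
        rw [pow_two, Equiv.Perm.mul_apply]
        show flip (flip (w, e)) = (w, e)
        rw [hflip_apply, hflip_apply, add_assoc, zmod2_add_self, add_zero]
      · rw [map_mul, map_mul, map_mul, map_inv, map_inv, FreeGroup.lift_apply_of,
          FreeGroup.lift_apply_of, mul_inv_eq_one, mul_inv_eq_iff_eq_mul]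
        ext1 p
        obtain ⟨w, e⟩ := p
        rw [Equiv.Perm.mul_apply, Equiv.Perm.mul_apply]
        show flip (tau cs c s (w, e)) = tau cs c s (flip (w, e))
        rw [hflip_apply, tau_apply, tau_apply, hflip_apply, add_right_comm]
      · rw [map_pow, map_mul, FreeGroup.lift_apply_of, FreeGroup.lift_apply_of]
        ext1 p
        obtain ⟨w, e⟩ := p
        show ((tau cs c s * tau cs c t) ^ (M s t)) (w, e) = (w, e)
        rw [tau_braid cs c hc h1 h2, if_neg (by rw [h3]; decide), add_zero]
      · rw [map_mul, map_inv, map_pow, map_mul, FreeGroup.lift_apply_of, FreeGroup.lift_apply_of,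
          FreeGroup.lift_apply_of, mul_inv_eq_one]
        ext1 p
        obtain ⟨w, e⟩ := p
        show ((tau cs c s * tau cs c t) ^ (M s t)) (w, e) = flip (w, e)
        rw [tau_braid cs c hc h1 h2, if_pos h3, hflip_apply]
    intro h
    have h1 := congrArg (PresentedGroup.toGroup hl) h
    rw [hqdef, PresentedGroup.toGroup.of, map_one] at h1
    have h2 : flip ((1 : W), (0 : ZMod 2)) = (1, 0) := by
      change flip = 1 at h1
      rw [h1]
      rfl
    rw [hflip_apply] at h2
    have h3 := congrArg Prod.snd h2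
    simp at h3
  -- `q` is central
  have hqc : ∀ x : PresentedGroup (signRels M c), q * x = x * q := by
    intro x
    have hx : x ∈ Subgroup.centralizer {q} := by
      have h : (⊤ : Subgroup (PresentedGroup (signRels M c))) ≤ Subgroup.centralizer {q} := by
        rw [← PresentedGroup.closure_range_of, Subgroup.closure_le]
        rintro _ ⟨o, rfl⟩
        rw [SetLike.mem_coe, Subgroup.mem_centralizer_singleton_iff]
        cases o with
        | none => rfl
        | some s => exact (hqs s).symm
      exact h trivial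
    rw [Subgroup.mem_centralizer_singleton_iff] at hx
    exact hx.symm
  have hnorm : (Subgroup.zpowers q).Normal := by
    refine ⟨fun n hn g => ?_⟩
    obtain ⟨k, rfl⟩ := Subgroup.mem_zpowers_iff.mp hn
    have h1 : Commute q g := hqc g
    have h2 : g * q ^ k * g⁻¹ = q ^ k := by
      rw [← (h1.zpow_left k).eq, mul_inv_cancel_right]
    rw [h2]
    exact Subgroup.zpow_mem_zpowers q k
  -- the map from `ℤ/2`
  let ι : Multiplicative (ZMod 2) →* PresentedGroup (signRels M c) :=
    MonoidHom.mk' (fun x => q ^ (Multiplicative.toAdd x).val) (by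
      intro a b
      rw [toAdd_mul, ZMod.val_add, ← pow_add]
      exact (pow_eq_pow_mod _ hqq).symm)
  have hι : ∀ x, ι x = q ^ (Multiplicative.toAdd x).val := fun x => rfl
  have hι1 : ι (Multiplicative.ofAdd 1) = q := by
    rw [hι]
    exact pow_one q
  refine ⟨ι, π, hι1, hπs, hπq, ?_, ?_, ?_⟩
  · rw [injective_iff_map_eq_one]
    intro x hx
    rw [hι] at hx
    have h1 : (Multiplicative.toAdd x).val < 2 := ZMod.val_lt _
    have h2 : (Multiplicative.toAdd x).val = 0 := by
      by_contra h
      have h3 : (Multiplicative.toAdd x).val = 1 := by omega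
      rw [h3, pow_one] at hx
      exact hq1 hx
    rw [ZMod.val_eq_zero] at h2
    exact h2
  · ext x
    rw [MonoidHom.mem_ker]
    constructor
    · rintro ⟨y, rfl⟩
      rw [hι, map_pow, hπq, one_pow]
    · intro hx
      -- lift `W → W' / ⟨q⟩`
      have hlift : M.IsLiftable (fun s : B => QuotientGroup.mk' (Subgroup.zpowers q)
          (PresentedGroup.of (some s))) := by
        intro s t
        rw [← map_mul, ← map_pow]
        by_cases hst : s = t
        · subst hst
          rw [M.diagonal, pow_one, ← pow_two, hss, map_one]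
        · by_cases h0 : M s t = 0
          · rw [h0, pow_zero, map_one]
          · rcases Int.units_eq_one_or (c s t) with h | h
            · rw [hst1 s t hst h0 h, map_one]
            · rw [hst2 s t hst h0 h]
              exact (QuotientGroup.eq_one_iff q).mpr (Subgroup.mem_zpowers q)
      have hcomp : (cs.lift ⟨_, hlift⟩).comp π = QuotientGroup.mk' (Subgroup.zpowers q) := by
        apply PresentedGroup.ext
        intro o
        cases o with
        | none =>
          rw [MonoidHom.comp_apply]
          change cs.lift ⟨_, hlift⟩ (π q) = QuotientGroup.mk' (Subgroup.zpowers q) q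
          rw [hπq, map_one]
          exact ((QuotientGroup.eq_one_iff q).mpr (Subgroup.mem_zpowers q)).symm
        | some s =>
          rw [MonoidHom.comp_apply, hπs, cs.lift_apply_simple hlift]
      have h1 : QuotientGroup.mk' (Subgroup.zpowers q) x = 1 := by
        rw [← hcomp, MonoidHom.comp_apply, hx, map_one]
      have h2 : x ∈ Subgroup.zpowers q := (QuotientGroup.eq_one_iff x).mp h1
      obtain ⟨k, rfl⟩ := Subgroup.mem_zpowers_iff.mp h2
      exact Subgroup.zpow_mem ι.range ⟨_, hι1⟩ k
  · rw [← MonoidHom.range_eq_top, eq_top_iff, ← cs.subgroup_closure_range_simple,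
      Subgroup.closure_le]
    rintro _ ⟨s, rfl⟩
    exact ⟨_, hπs s⟩

end Pool.Agent.Results.MP_07fa45_al.SignExtensionExact
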